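import Mathlib

/-! The root number of the curve `y ^ 2 = x ^ 3 + b`. -/

set_option autoImplicit false

namespace Pool.Agent.Lib.MP_696deb_nt.CQ

/-- The part of `D` that is prime to three, up to powers of `-3`. -/
def d3 (D : ℤ) : ℤ := D / (-3) ^ D.natAbs.factorization 3

/-- The quadratic field of `d3 D` is unramified at `q`. -/
def Unr (D : ℤ) (q : ℕ) : Prop :=
  D.natAbs.factorization q % 2 = 0 ∧ (q = 2 → d3 D / 2 ^ D.natAbs.factorization 2 % 4 = 1)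

instance (D : ℤ) (q : ℕ) : Decidable (Unr D q) := by
  unfold Unr
  infer_instance

/-- The local condition at three. -/
def W3 (D : ℤ) (n : ℕ) : Prop :=
  if d3 D % 3 = 1 then n.factorization 3 % 3 = 1 ∨ n.factorization 3 % 3 = 0 ∧
      (n / 3 ^ n.factorization 3 % 9 = 1 ∨ n / 3 ^ n.factorization 3 % 9 = 8)
  else n.factorization 3 % 3 = 2 ∨ n.factorization 3 % 3 = 0 ∧
      (n / 3 ^ n.factorization 3 % 9 = 4 ∨ n / 3 ^ n.factorization 3 % 9 = 5)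

/-- The root number of the quadratic twist by `D` of `x ^ 3 + y ^ 3 = n` is one. -/
def Wq (D : ℤ) (n : ℕ) : Prop :=
  Even (n.primeFactors.filter fun q => q % 3 = 2 ∧ n.factorization q % 3 ≠ 0 ∧ Unr D q).card ↔
    (0 < d3 D ↔ W3 D n)

/-- The local root number at two of `y ^ 2 = x ^ 3 + b`. -/
def w2 (b : ℤ) : ℤ :=
  if padicValInt 2 b % 6 = 0 ∨ padicValInt 2 b % 6 = 2 ∨ b / 2 ^ padicValInt 2 b % 4 = 3 then -1
  else 1

/-- The local root number at three of `y ^ 2 = x ^ 3 + b`. -/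
def w3 (b : ℤ) : ℤ :=
  if (padicValInt 3 b % 6 = 1 ∨ padicValInt 3 b % 6 = 2) ∧ b / 3 ^ padicValInt 3 b % 3 = 1 ∨
    (padicValInt 3 b % 6 = 4 ∨ padicValInt 3 b % 6 = 5) ∧ b / 3 ^ padicValInt 3 b % 3 = 2 ∨
    padicValInt 3 b % 6 = 0 ∧ (b / 3 ^ padicValInt 3 b % 9 = 5 ∨ b / 3 ^ padicValInt 3 b % 9 = 7) ∨
    padicValInt 3 b % 6 = 3 ∧ (b / 3 ^ padicValInt 3 b % 9 = 2 ∨ b / 3 ^ padicValInt 3 b % 9 = 4)
  then -1 else 1

/-- The local root number at a prime `p > 3` of `y ^ 2 = x ^ 3 + b`. -/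
def wp (b : ℤ) (p : ℕ) : ℤ :=
  if padicValInt p b % 2 = 1 ∧ p % 4 = 3 ∨
    (padicValInt p b % 6 = 2 ∨ padicValInt p b % 6 = 4) ∧ p % 3 = 2 then -1 else 1

/-- The root number of `y ^ 2 = x ^ 3 + b`. -/
def rootNumber (b : ℤ) : ℤ :=
  -(w2 b * w3 b * ∏ p ∈ b.natAbs.primeFactors with 3 < p, wp b p)

end Pool.Agent.Lib.MP_696deb_nt.CQ
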