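import Pool.Agent.Lib.MP_696deb_nt.CL.F1

/-! Point counts of quadratic twists. -/

set_option autoImplicit false

open scoped Classical Real
open Complex Finset

namespace Pool.Agent.Lib.MP_696deb_nt.CQ

open CL

/-- The number of affine points modulo `p`. -/
noncomputable def cnb (b : ℤ) (p : ℕ) : ℕ := Nat.card {q : ZMod p × ZMod p //
  q.2 ^ 2 = q.1 ^ 3 + ((0 : ℤ) : ZMod p) * q.1 + (b : ZMod p)}

variable {p : ℕ} [Fact p.Prime]

theorem cnb_eq (h2 : p ≠ 2) (b : ℤ) :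
    (p : ℤ) - cnb b p = -∑ x : ZMod p, quadraticChar (ZMod p) (x ^ 3 + b) := by
  have h : ringChar (ZMod p) ≠ 2 := by rwa [ZMod.ringChar_zmod_n]
  have e : (cnb b p : ℤ) = ∑ x : ZMod p, (quadraticChar (ZMod p) (x ^ 3 + b) + 1) := by
    rw [cnb, Nat.card_eq_fintype_card, Fintype.card_subtype, card_filter, Fintype.sum_prod_type]
    push_cast
    refine sum_congr rfl fun x _ => ?_
    rw [← quadraticChar_card_sqrts h, Set.toFinset_ofPred, card_filter]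
    push_cast
    exact sum_congr rfl fun y _ => if_congr (by rw [zero_mul, add_zero]) rfl rfl
  rw [e, sum_add_distrib, sum_const, card_univ, ZMod.card]
  simp

theorem count_tw (h2 : p ≠ 2) {b D : ℤ} {n : ℕ} (h : 4 * b * D ^ 3 = -27 * (n : ℤ) ^ 2)
    (hD : ¬ (p : ℤ) ∣ D) : (p : ℤ) - cnb b p = jacobiSym D p * ((p : ℤ) - cnt n p) := by
  have e0 : cnt n p = cnb (-432 * (n : ℤ) ^ 2) p := rfl
  have d0 : (D : ZMod p) ≠ 0 := fun k => hD ((ZMod.intCast_zmod_eq_zero_iff_dvd D p).1 k)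
  have t0 : (2 : ZMod p) ≠ 0 := fun k => h2 ((Nat.prime_dvd_prime_iff_eq Fact.out Nat.prime_two).1
    ((ZMod.natCast_eq_zero_iff 2 p).1 (by exact_mod_cast k)))
  have c0 : (2 ^ 2 * D : ZMod p) ≠ 0 := mul_ne_zero (pow_ne_zero 2 t0) d0
  have e1 : (4 * b * D ^ 3 : ZMod p) = -27 * (n : ZMod p) ^ 2 := by
    exact_mod_cast congrArg (Int.cast : ℤ → ZMod p) h
  rw [e0, cnb_eq h2, cnb_eq h2, ← jacobiSym.legendreSym.to_jacobiSym, legendreSym, mul_neg,
    neg_inj, mul_sum]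
  refine Fintype.sum_equiv (Equiv.mulLeft₀ _ c0) _ _ fun x => ?_
  rw [Equiv.mulLeft₀_apply, ← map_mul, show (D : ZMod p) * ((2 ^ 2 * D * x) ^ 3 +
      ((-432 * (n : ℤ) ^ 2 : ℤ) : ZMod p)) = (2 ^ 3 * D ^ 2) ^ 2 * (x ^ 3 + b) by
    push_cast
    linear_combination -16 * (D : ZMod p) * e1, map_mul,
    quadraticChar_sq_one' (mul_ne_zero (pow_ne_zero 3 t0) (pow_ne_zero 2 d0)), one_mul]

end Pool.Agent.Lib.MP_696deb_nt.CQ
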