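import Pool.Agent.Lib.MP_696deb_nt.CQ.D

/-! The two formulas for the root number agree. -/

set_option autoImplicit false

open Finset

namespace Pool.Agent.Lib.MP_696deb_nt.CQ

theorem val_eq {p : ℕ} (hp : p.Prime) (b : ℤ) : padicValInt p b = b.natAbs.factorization p :=
  (Nat.factorization_def _ hp).symm

theorem int_part {p : ℕ} (hp : p.Prime) {b : ℤ} (hb : b ≠ 0) :
    b = p ^ b.natAbs.factorization p * (b / p ^ b.natAbs.factorization p) ∧
      ¬ (p : ℤ) ∣ b / p ^ b.natAbs.factorization p := by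
  have h : (p : ℤ) ^ b.natAbs.factorization p ∣ b := by
    rw [← Int.natAbs_dvd_natAbs, Int.natAbs_pow]
    exact Nat.ordProj_dvd _ _
  have e := (Int.mul_ediv_cancel' h).symm
  refine ⟨e, fun c => Nat.pow_succ_factorization_not_dvd (Int.natAbs_ne_zero.2 hb) hp ?_⟩
  have k : (p : ℤ) ^ (b.natAbs.factorization p + 1) ∣ b := by
    rw [pow_succ]
    conv_rhs => rw [e]
    exact mul_dvd_mul_left _ c
  rwa [← Int.natAbs_dvd_natAbs, Int.natAbs_pow] at k

/-- The condition at three for the twisted pair. -/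
def kA (c y z : ℕ) : Prop := if y % 3 = 1 then 2 * c % 3 = 1 ∨ 2 * c % 3 = 0 ∧ (z = 1 ∨ z = 8)
  else 2 * c % 3 = 2 ∨ 2 * c % 3 = 0 ∧ (z = 4 ∨ z = 5)

/-- The condition at three for the coefficient. -/
def kB (c x : ℕ) : Prop := (c = 1 ∨ c = 2) ∧ x % 3 = 1 ∨ (c = 4 ∨ c = 5) ∧ x % 3 = 2 ∨
  c = 0 ∧ (x = 5 ∨ x = 7) ∨ c = 3 ∧ (x = 2 ∨ x = 4)

instance (c y z : ℕ) : Decidable (kA c y z) := by
  unfold kA
  infer_instance

instance (c x : ℕ) : Decidable (kB c x) := by
  unfold kB
  infer_instance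

theorem key3 : ∀ (c : Fin 6) (x y z : ZMod 9), 4 * (-1) ^ c.val * x * y ^ 3 = z ^ 2 →
    z.val % 3 ≠ 0 → (kA c.val y.val z.val ↔ kB c.val x.val) := by decide +kernel

theorem key2 : ∀ x y z : ZMod 4, x * y ^ 3 = z ^ 2 → z.val % 2 = 1 → x = y := by decide

open scoped Classical

variable {b D : ℤ} {n : ℕ} (hn : n ≠ 0) (h : 4 * b * D ^ 3 = -27 * (n : ℤ) ^ 2)
include hn h

theorem D_ne : D ≠ 0 := by
  rintro rfl
  exact hn (by simpa using h)

theorem b_ne : b ≠ 0 := by
  rintro rfl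
  exact hn (by simpa using h)

theorem val_rel (q : ℕ) : (if q = 2 then 2 else 0) + b.natAbs.factorization q +
    3 * D.natAbs.factorization q = (if q = 3 then 3 else 0) + 2 * n.factorization q := by
  have hb := Int.natAbs_ne_zero.2 (b_ne hn h)
  have hD := Int.natAbs_ne_zero.2 (D_ne hn h)
  have e : 2 ^ 2 * b.natAbs * D.natAbs ^ 3 = 3 ^ 3 * n ^ 2 := by
    simpa [Int.natAbs_mul, Int.natAbs_pow] using congrArg Int.natAbs h
  have k : (2 ^ 2 * b.natAbs * D.natAbs ^ 3).factorization q = (3 ^ 3 * n ^ 2).factorization q :=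
    by rw [e]
  rw [Nat.factorization_mul (by positivity) (by positivity),
    Nat.factorization_mul (by positivity) hb, Nat.factorization_mul (by positivity) (by positivity),
    Nat.prime_two.factorization_pow, Nat.prime_three.factorization_pow, Nat.factorization_pow,
    Nat.factorization_pow] at k
  simpa only [Finsupp.add_apply, Finsupp.smul_apply, smul_eq_mul, Finsupp.single_apply,
    eq_comm (b := q)] using k

theorem rel3 : 4 * (-1) ^ b.natAbs.factorization 3 * (b / 3 ^ b.natAbs.factorization 3) *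
    d3 D ^ 3 = ((n / 3 ^ n.factorization 3 : ℕ) : ℤ) ^ 2 := by
  have e1 := (int_part Nat.prime_three (b_ne hn h)).1
  have e2 := (d3_spec (D_ne hn h)).1
  have e3 : (n : ℤ) = 3 ^ n.factorization 3 * (n / 3 ^ n.factorization 3 : ℕ) := by
    exact_mod_cast (Nat.ordProj_mul_ordCompl_eq_self n 3).symm
  have e4 := val_rel hn h 3
  rw [if_neg (by decide), if_pos rfl, zero_add] at e4
  rw [Nat.cast_ofNat] at e1
  generalize b / 3 ^ b.natAbs.factorization 3 = x at e1 ⊢
  generalize ((n / 3 ^ n.factorization 3 : ℕ) : ℤ) = z at e3 ⊢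
  generalize d3 D = y at e2 ⊢
  generalize b.natAbs.factorization 3 = c at e1 e4 ⊢
  generalize D.natAbs.factorization 3 = j at e2 e4
  generalize n.factorization 3 = l at e3 e4
  have e5 : (3 : ℤ) ^ c * (3 ^ j) ^ 3 = 27 * (3 ^ l) ^ 2 := by
    rw [← pow_mul, ← pow_add, mul_comm j, e4, pow_add, pow_mul']
    norm_num
  have e6 : (-1 : ℤ) ^ c = -((-1) ^ j) ^ 3 := by
    rw [← pow_mul, ← neg_one_mul ((-1 : ℤ) ^ (j * 3)), ← pow_succ', neg_one_pow_eq_pow_mod_two,
      neg_one_pow_eq_pow_mod_two (n := j * 3 + 1)]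
    congr 1
    omega
  rw [e1, e2, e3, neg_pow 3] at h
  refine mul_left_cancel₀ (a := 27 * ((3 : ℤ) ^ l) ^ 2) (by positivity) ?_
  rw [e6]
  linear_combination -h + 4 * x * ((-1) ^ j) ^ 3 * y ^ 3 * e5

theorem w3_eq : w3 b = if W3 D n then -1 else 1 := by
  have e := congrArg (Int.cast : ℤ → ZMod 9) (rel3 hn h)
  have e4 := val_rel hn h 3
  rw [if_neg (by decide), if_pos rfl, zero_add] at e4
  have e5 : ¬ 3 ∣ n / 3 ^ n.factorization 3 := Nat.not_dvd_ordCompl Nat.prime_three hn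
  rw [w3, val_eq Nat.prime_three]
  refine if_congr ?_ rfl rfl
  rw [W3]
  generalize b / 3 ^ b.natAbs.factorization 3 = x at e ⊢
  generalize n / 3 ^ n.factorization 3 = z at e e5 ⊢
  generalize d3 D = y at e ⊢
  generalize b.natAbs.factorization 3 = c at e e4 ⊢
  push_cast at e
  rw [show (-1 : ZMod 9) ^ c = (-1) ^ (c % 6) by
    rw [neg_one_pow_eq_pow_mod_two, neg_one_pow_eq_pow_mod_two (n := c % 6)]
    congr 1
    omega] at e
  have h1 : (((x : ZMod 9).val : ℕ) : ℤ) = x % 9 := ZMod.val_intCast x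
  have h2 : (((y : ZMod 9).val : ℕ) : ℤ) = y % 9 := ZMod.val_intCast y
  have h3 : (z : ZMod 9).val = z % 9 := ZMod.val_natCast _ _
  have k := key3 ⟨c % 6, Nat.mod_lt _ (by norm_num)⟩ x y z e (by omega)
  rw [kA, kB] at k
  dsimp only at k
  rw [show n.factorization 3 % 3 = 2 * (c % 6) % 3 by omega, ← h3,
    if_congr (show y % 3 = 1 ↔ (y : ZMod 9).val % 3 = 1 by omega) rfl rfl, k]
  omega

theorem rel2 : b / 2 ^ b.natAbs.factorization 2 % 4 = d3 D / 2 ^ D.natAbs.factorization 2 % 4 := by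
  have hD := D_ne hn h
  have e1 := (int_part Nat.prime_two (b_ne hn h)).1
  have e2 := (d3_spec hD).1
  have e3 : (n : ℤ) = 2 ^ n.factorization 2 * (n / 2 ^ n.factorization 2 : ℕ) := by
    exact_mod_cast (Nat.ordProj_mul_ordCompl_eq_self n 2).symm
  have e4 := val_rel hn h 2
  have e5 := (int_part Nat.prime_two (d3_ne hD)).1
  have e6 : ¬ 2 ∣ n / 2 ^ n.factorization 2 := Nat.not_dvd_ordCompl Nat.prime_two hn
  rw [if_pos rfl, if_neg (by decide), zero_add] at e4
  rw [d3_fac hD (by decide)] at e5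
  rw [Nat.cast_ofNat] at e1 e5
  generalize b / 2 ^ b.natAbs.factorization 2 = x at e1 ⊢
  generalize n / 2 ^ n.factorization 2 = z at e3 e6
  generalize d3 D / 2 ^ D.natAbs.factorization 2 = y at e5 ⊢
  generalize b.natAbs.factorization 2 = a at e1 e4
  generalize D.natAbs.factorization 2 = i at e4 e5
  generalize D.natAbs.factorization 3 = j at e2
  generalize n.factorization 2 = k at e3 e4
  have e7 : 4 * (2 : ℤ) ^ a * (2 ^ i) ^ 3 = (2 ^ k) ^ 2 := by
    rw [← pow_mul, ← pow_mul, mul_comm k, ← e4, pow_add, pow_add, mul_comm i]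
    norm_num
  rw [e5] at e2
  rw [e1, e2, e3] at h
  have e8 : x * ((-3) ^ j) ^ 3 * y ^ 3 = -27 * (z : ℤ) ^ 2 :=
    mul_left_cancel₀ (a := ((2 : ℤ) ^ k) ^ 2) (by positivity) (by
      linear_combination h - x * ((-3) ^ j) ^ 3 * y ^ 3 * e7)
  have e9 := congrArg (Int.cast : ℤ → ZMod 4) e8
  push_cast at e9
  rw [show (-3 : ZMod 4) = 1 by decide, show (-27 : ZMod 4) = 1 by decide, one_pow, one_pow,
    mul_one, one_mul] at e9
  exact (ZMod.intCast_eq_intCast_iff' x y 4).1 (key2 _ _ _ e9 (by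
    rw [ZMod.val_natCast]
    omega))

theorem root_eq : rootNumber b = (-1) ^ (n.primeFactors.filter fun q =>
    q % 3 = 2 ∧ n.factorization q % 3 ≠ 0 ∧ Unr D q).card *
      ((if 0 < d3 D then 1 else -1) * if W3 D n then 1 else -1) := by
  have hb := b_ne hn h
  have hb' := Int.natAbs_ne_zero.2 hb
  obtain ⟨S, hS⟩ : ∃ S, S = n.primeFactors.filter fun q =>
    q % 3 = 2 ∧ n.factorization q % 3 ≠ 0 ∧ Unr D q := ⟨_, rfl⟩
  obtain ⟨U, hU⟩ : ∃ U, U = b.natAbs.primeFactors.filter (3 < ·) := ⟨_, rfl⟩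
  have u1 : ∀ q ∈ U, q.Prime ∧ 3 < q := fun q hq => by
    rw [hU, mem_filter] at hq
    exact ⟨Nat.prime_of_mem_primeFactors hq.1, hq.2⟩
  have u2 : U = (b.natAbs.primeFactors.erase 2).erase 3 := by
    ext q
    simp only [hU, mem_filter, mem_erase]
    exact ⟨fun k => ⟨by omega, by omega, k.1⟩, fun k => ⟨k.2.2, by
      have := (Nat.prime_of_mem_primeFactors k.2.2).two_le
      omega⟩⟩
  have s1 : S.erase 2 = U.filter fun q => (b.natAbs.factorization q % 6 = 2 ∨
      b.natAbs.factorization q % 6 = 4) ∧ q % 3 = 2 := by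
    ext q
    have k := val_rel hn h q
    simp only [hS, hU, mem_filter, mem_erase]
    rw [Unr]
    constructor
    · rintro ⟨a1, a2, a3, a4, a5, -⟩
      have := (Nat.prime_of_mem_primeFactors a2).two_le
      rw [if_neg a1, if_neg (by omega)] at k
      refine ⟨⟨?_, by omega⟩, by omega, a3⟩
      rw [← Nat.support_factorization, Finsupp.mem_support_iff]
      omega
    · rintro ⟨⟨-, a2⟩, a3, a4⟩
      rw [if_neg (by omega), if_neg (by omega)] at k
      refine ⟨by omega, ?_, a4, by omega, by omega, by omega⟩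
      rw [← Nat.support_factorization, Finsupp.mem_support_iff]
      omega
  have s2 : ∏ q ∈ U, wp b q = (-1) ^ (S.erase 2).card *
      ∏ q ∈ U, ZMod.χ₄ q ^ b.natAbs.factorization q := by
    rw [s1, ← prod_const, prod_filter, ← prod_mul_distrib]
    refine prod_congr rfl fun q hq => ?_
    have a1 := (u1 q hq).1.eq_two_or_odd
    have a2 := (u1 q hq).2
    rw [wp, val_eq (u1 q hq).1, ZMod.χ₄_nat_eq_if_mod_four, if_neg (c := q % 2 = 0) (by omega)]
    generalize b.natAbs.factorization q = v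
    by_cases c : q % 4 = 1
    · rw [if_pos c, one_pow, mul_one]
      exact if_congr (by omega) rfl rfl
    · rw [if_neg c, neg_one_pow_eq_pow_mod_two]
      rcases Nat.mod_two_eq_zero_or_one v with e | e <;> rw [e]
      · rw [pow_zero, mul_one]
        exact if_congr (by omega) rfl rfl
      · rw [if_pos (by omega), if_neg (by omega)]
        rfl
  obtain ⟨e1, e2⟩ := int_part Nat.prime_two hb
  have e3 := rel2 hn h
  have e4 := val_rel hn h 2
  have e5 := rel3 hn h
  rw [if_pos rfl, if_neg (by decide), zero_add] at e4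
  rw [Nat.cast_ofNat] at e1 e2
  have s3 : ZMod.χ₄ ((b / 2 ^ b.natAbs.factorization 2).natAbs : ℕ) =
      (-1) ^ b.natAbs.factorization 3 * ∏ q ∈ U, ZMod.χ₄ q ^ b.natAbs.factorization q := by
    have k := congrArg Int.natAbs e1
    rw [Int.natAbs_mul, Int.natAbs_pow] at k
    rw [mul_left_cancel₀ (by positivity) (k.symm.trans (fac_two hb' 2)), Nat.cast_prod, map_prod,
      u2, prod_congr rfl fun q _ => by rw [Nat.cast_pow, map_pow]]
    by_cases c : 3 ∈ b.natAbs.primeFactors.erase 2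
    · rw [← mul_prod_erase _ _ c]
      rfl
    · rw [erase_eq_of_notMem c, (Finsupp.notMem_support_iff (f := b.natAbs.factorization)
        (a := 3)).1 fun e => c (mem_erase.2 ⟨by decide, e⟩), pow_zero, one_mul]
  have s4 : 2 ∈ S ↔ (b.natAbs.factorization 2 % 6 = 0 ∨ b.natAbs.factorization 2 % 6 = 2) ∧
      b / 2 ^ b.natAbs.factorization 2 % 4 = 1 := by
    rw [hS, mem_filter, Unr, ← e3, ← Nat.support_factorization, Finsupp.mem_support_iff]
    omega
  have s5 : (-1 : ℤ) ^ S.card = (if 2 ∈ S then -1 else 1) * (-1) ^ (S.erase 2).card := by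
    split_ifs with c
    · rw [← card_erase_add_one c, pow_succ']
    · rw [erase_eq_of_notMem c, one_mul]
  have s6 : (if 0 < d3 D then 1 else -1 : ℤ) = (-1) ^ b.natAbs.factorization 3 *
      if 0 < b / 2 ^ b.natAbs.factorization 2 then 1 else -1 := by
    have a1 := (int_part Nat.prime_three hb).1
    have a2 : 0 < ((n / 3 ^ n.factorization 3 : ℕ) : ℤ) ^ 2 :=
      pow_pos (Int.natCast_pos.2 (Nat.ordCompl_pos 3 hn)) 2
    have a3 : 0 < b / 2 ^ b.natAbs.factorization 2 ↔ 0 < b / 3 ^ b.natAbs.factorization 3 := by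
      rw [← mul_pos_iff_of_pos_left (a := (2 : ℤ) ^ b.natAbs.factorization 2) (by positivity),
        ← mul_pos_iff_of_pos_left (a := ((3 : ℕ) : ℤ) ^ b.natAbs.factorization 3)
          (b := b / 3 ^ b.natAbs.factorization 3) (by positivity), ← e1]
      exact iff_of_eq (congrArg _ a1)
    rw [← e5] at a2
    rw [if_congr a3 rfl rfl]
    generalize b / 3 ^ b.natAbs.factorization 3 = x at a2
    have d0 := d3_ne (D_ne hn h)
    generalize d3 D = y at a2 d0
    have a4 : 0 < (-1) ^ b.natAbs.factorization 3 * x * y := by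
      have : 0 < 4 * y ^ 2 * ((-1) ^ b.natAbs.factorization 3 * x * y) := by linarith
      exact (pos_iff_pos_of_mul_pos this).1 (by positivity)
    rcases neg_one_pow_eq_or ℤ (b.natAbs.factorization 3) with c | c <;> rw [c] at a4 ⊢ <;>
      split_ifs <;> first | rfl | nlinarith
  have s7 : w2 b * (if 0 < b / 2 ^ b.natAbs.factorization 2 then 1 else -1) =
      (if 2 ∈ S then -1 else 1) * ZMod.χ₄ ((b / 2 ^ b.natAbs.factorization 2).natAbs : ℕ) := by
    rw [w2, val_eq Nat.prime_two, if_congr s4 rfl rfl, ZMod.χ₄_nat_eq_if_mod_four]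
    generalize b / 2 ^ b.natAbs.factorization 2 = x at e2
    split_ifs <;> first | rfl | omega
  have s8 : ((if 0 < b / 2 ^ b.natAbs.factorization 2 then 1 else -1 : ℤ)) ^ 2 = 1 := by
    split_ifs <;> rfl
  have s9 : ((if 2 ∈ S then -1 else 1 : ℤ)) ^ 2 = 1 := by split_ifs <;> rfl
  have s10 : w2 b ^ 2 = 1 := by
    unfold w2
    split_ifs <;> rfl
  have s11 : (if W3 D n then 1 else -1 : ℤ) = -w3 b := by
    rw [w3_eq hn h]
    split_ifs <;> rfl
  rw [rootNumber, ← hS, ← hU, s2, s5, s6, s11]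
  rw [s3] at s7
  generalize (if 0 < b / 2 ^ b.natAbs.factorization 2 then 1 else -1 : ℤ) = σ at s7 s8
  generalize (if 2 ∈ S then -1 else 1 : ℤ) = τ at s7 s9
  generalize ∏ q ∈ U, ZMod.χ₄ q ^ b.natAbs.factorization q = P at s7
  have s12 : ((-1 : ℤ) ^ b.natAbs.factorization 3) ^ 2 = 1 := by
    rw [← pow_mul, mul_comm, pow_mul, neg_one_sq, one_pow]
  generalize (-1 : ℤ) ^ b.natAbs.factorization 3 = ε at s7 s12
  have s13 : w2 b * P = τ * ε * σ := by
    linear_combination (-(w2 b * τ * ε)) * s7 + τ * ε * σ * s10 - w2 b * P * ε ^ 2 * s9 -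
      w2 b * P * s12
  linear_combination (-(w3 b * (-1) ^ (S.erase 2).card)) * s13

theorem wq_iff' : Wq D n ↔ rootNumber b = 1 := by
  rw [root_eq hn h, Wq]
  generalize (n.primeFactors.filter fun q =>
    q % 3 = 2 ∧ n.factorization q % 3 ≠ 0 ∧ Unr D q).card = c
  by_cases b2 : W3 D n
  all_goals rcases Nat.even_or_odd c with e | e
  all_goals rw [e.neg_one_pow]
  all_goals try rw [← Nat.not_even_iff_odd] at e
  all_goals by_cases b1 : 0 < d3 D <;> simp only [e, b1, b2] <;> simp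

end Pool.Agent.Lib.MP_696deb_nt.CQ
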