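import Pool.Agent.Lib.MP_696deb_nt.CQ.C
import Pool.Agent.Lib.MP_696deb_nt.CQ.W

/-! The twisted Hecke character. -/

set_option autoImplicit false

open scoped Classical Real
open Complex Finset

namespace Pool.Agent.Lib.MP_696deb_nt.CQ

open CL

theorem d3_spec {D : ℤ} (hD : D ≠ 0) :
    D = (-3) ^ D.natAbs.factorization 3 * d3 D ∧ ¬ 3 ∣ d3 D := by
  have h : (-3 : ℤ) ^ D.natAbs.factorization 3 ∣ D := by
    rw [← Int.natAbs_dvd_natAbs, Int.natAbs_pow]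
    exact Nat.ordProj_dvd _ _
  have e := (Int.mul_ediv_cancel' h).symm
  refine ⟨e, fun c => Nat.pow_succ_factorization_not_dvd (Int.natAbs_ne_zero.2 hD)
    Nat.prime_three ?_⟩
  have k : (-3 : ℤ) ^ (D.natAbs.factorization 3 + 1) ∣ D := by
    rw [pow_succ]
    conv_rhs => rw [e]
    exact mul_dvd_mul_left _ (neg_dvd.2 c)
  rwa [← Int.natAbs_dvd_natAbs, Int.natAbs_pow] at k

theorem d3_ne {D : ℤ} (hD : D ≠ 0) : d3 D ≠ 0 := fun e => (d3_spec hD).2 (e ▸ dvd_zero _)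

theorem d3_fac {D : ℤ} (hD : D ≠ 0) {q : ℕ} (h : q ≠ 3) :
    (d3 D).natAbs.factorization q = D.natAbs.factorization q := by
  conv_rhs => rw [(d3_spec hD).1]
  rw [Int.natAbs_mul, Int.natAbs_pow, Nat.factorization_mul (by positivity)
    (Int.natAbs_ne_zero.2 (d3_ne hD)), show (-3 : ℤ).natAbs = 3 from rfl,
    Nat.prime_three.factorization_pow, Finsupp.add_apply, Finsupp.single_eq_of_ne h, zero_add]

theorem exists_phi0 {n : ℕ} (hn : n ≠ 0) {v : ℕ → ℕ} (hv : ∀ q, n.factorization q = v q)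
    {Q : Finset ℕ} (hQd : Q = (n.primeFactors.erase 3).filter fun q => v q % 3 ≠ 0)
    {X : ℕ → O → O} (hX' : ∀ q : ℕ, q.Prime → q ≠ 3 → IsX q (X q)) :
    ∃ (K : ZMod 3) (N : ℤ), Gch N (f8phi (v 3) K X v Q) ∧ N ∣ 3 * n ∧ f8R (n / 3 ^ v 3 : ℕ) K ∧
    ∀ (p : ℕ) [Fact p.Prime] (z : O) (ρ : O →+* ZMod p) (χ : MulChar (ZMod p) O), Qc p z ρ χ →
      ¬ p ∣ n → f8phi (v 3) K X v Q z = star (χ n) := by
  have hP : ∀ q ∈ n.primeFactors.erase 3, q.Prime ∧ q ≠ 3 := fun q hq =>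
    ⟨Nat.prime_of_mem_primeFactors (mem_of_mem_erase hq), ne_of_mem_erase hq⟩
  have hs : Q ⊆ n.primeFactors.erase 3 := hQd ▸ filter_subset _ _
  have hX : ∀ q ∈ Q, IsX q (X q) := fun q h => hX' q (hP q (hs h)).1 (hP q (hs h)).2
  have hQ : ∀ q ∈ Q, q.Prime ∧ q ≠ 3 ∧ IsX q (X q) ∧ v q % 3 ≠ 0 := fun q h =>
    ⟨(hP q (hs h)).1, (hP q (hs h)).2, hX q h, by
      rw [hQd] at h
      exact (mem_filter.1 h).2⟩
  obtain ⟨K, hK⟩ : ∃ K, K = ∑ q ∈ Q, (v q : ZMod 3) * f8k q := ⟨_, rfl⟩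
  have hF := f8_fac hn
  simp only [hv] at hF
  refine ⟨K, 3 * ∏ q ∈ Q, (q : ℤ),
    ⟨?_, f8phi_mul _ K hQ, ?_, ?_, fun α => ?_, fun p hp h α e => ?_, dvd_mul_right _ _,
      fun p hp h => ?_, fun α => ?_⟩, mul_dvd_mul_left _ ?_, ?_, fun p _ z ρ χ h hp => ?_⟩
  · have := ph3_nat (v 3) K (n := 1) (by norm_num)
    rw [Nat.cast_one, if_pos rfl] at this
    rw [f8phi, this, one_mul]
    exact prod_eq_one fun q h => by rw [(hX q h).one (hQ q h).1, star_one, one_pow]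
  · rw [f8phi, ph3_om, prod_congr rfl fun q h => by
      rw [(hX q h).at_om, ← op_neg, neg_neg, f8_pow, ← f8k], f8_op, ← hK]
    exact (by decide : ∀ K : ZMod 3, op (-(K + 1)) * op K * om = 1) _
  · rw [f8phi, ph3_neg_one, prod_eq_one fun q h => by
      rw [(hX q h).neg_one (hQ q h).1, star_one, one_pow], mul_one]
  · rw [f8phi, f8phi, star_mul', star_prod, ph3_conj,
      prod_congr rfl fun q h => by rw [(hX q h).conj, ← star_pow]]
  · by_cases h3 : p = 3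
    · subst h3
      rw [f8phi, ph3_zero _ K e, zero_mul]
    · have hp' : Prime (p : ℤ) := Nat.prime_iff_prime_int.1 hp
      obtain ⟨q, hq, k⟩ := hp'.exists_mem_finset_dvd
        ((hp'.dvd_or_dvd h).resolve_left (f8_ndvd hp Nat.prime_three h3))
      obtain rfl : p = q := by_contra fun c => f8_ndvd hp (hQ q hq).1 c k
      rw [f8phi, prod_eq_zero hq (by
        rw [(hX p hq).zero α e, star_zero, zero_pow fun c => (hQ p hq).2.2.2 (by rw [c])]),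
        mul_zero]
  · rw [f8phi_nat _ K hQ hp (fun e => h (e ▸ dvd_mul_right _ _))
      fun e => h ((dvd_prod_of_mem _ e).mul_left 3), f8_qs, Int.cast_mul, Int.cast_natCast]
  · exact f8_bd (ph3_bd _ K α) (prod_induction _ (fun x : O => nm x ≤ 1) (fun _ _ => f8_bd)
      (by decide) fun q h => (hX q h).bd α _)
  · rw [← Nat.cast_prod, Int.natCast_dvd_natCast]
    exact (prod_dvd_prod_of_subset _ _ _ (hs.trans (erase_subset _ _))).trans
      (Nat.prod_primeFactors_dvd n)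
  · have e1 := f8R_prod _ v fun q hq => f8_mod (hP q hq).1 (hP q hq).2
    have e2 : n / 3 ^ v 3 = ∏ q ∈ n.primeFactors.erase 3, q ^ v q :=
      Nat.div_eq_of_eq_mul_right (by positivity) hF
    have e3 : K = ∑ q ∈ n.primeFactors.erase 3, (v q : ZMod 3) * f8k q := by
      rw [hK, hQd]
      refine sum_filter_of_ne fun q _ c d => c ?_
      rw [(ZMod.natCast_eq_zero_iff _ 3).2 (Nat.dvd_of_mod_eq_zero d), zero_mul]
    rwa [← e2, ← e3] at e1
  · have hq : ∀ q ∈ n.primeFactors.erase 3, q ≠ p := fun q hq e =>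
      hp (e ▸ Nat.dvd_of_mem_primeFactors (mem_of_mem_erase hq))
    have e1 : ∏ q ∈ Q, χ q ^ v q = ∏ q ∈ n.primeFactors.erase 3, χ q ^ v q := by
      rw [hQd]
      refine prod_filter_of_ne fun q k c d => c ?_
      obtain ⟨j, hj⟩ := Nat.dvd_of_mod_eq_zero d
      rw [hj, pow_mul, h.cube _ fun r => hq q k ((Nat.prime_dvd_prime_iff_eq Fact.out
        (hP q k).1).1 ((ZMod.natCast_eq_zero_iff q p).1 r)).symm, one_pow]
    have e2 : χ n = χ 3 ^ v 3 * ∏ q ∈ Q, χ q ^ v q := by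
      rw [e1]
      conv_lhs => rw [hF]
      simp only [Nat.cast_mul, Nat.cast_pow, Nat.cast_prod, map_mul, map_pow, map_prod,
        Nat.cast_ofNat]
    rw [e2, f8phi, ph3_prim _ K h.prim, h.three, f8_pow, star_mul', star_prod, op_neg]
    congr 1
    exact prod_congr rfl fun q k => by
      rw [h.recip (hQ q k).1 (hQ q k).2.1 (hq q (hs k)) (hX q k), star_pow]

theorem f8R_iff' {m : ℕ} {a : ZMod 3} (h : f8R m a) : m % 9 = 4 ∨ m % 9 = 5 ↔ a = 1 := by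
  have e : ∀ (x : ZMod 9) (a : ZMod 3), f8R x a → (x.val = 4 ∨ x.val = 5 ↔ a = 1) := by
    decide +kernel
  rw [← e _ _ h, ZMod.val_natCast]

theorem jac_three {d : ℤ} (h : ¬ 3 ∣ d) : jacobiSym d 3 = if d % 3 = 1 then 1 else -1 := by
  rw [jacobiSym.mod_left]
  split_ifs with c
  · rw [show d % (3 : ℕ) = 1 by omega, jacobiSym.one_left]
  · rw [show d % (3 : ℕ) = 2 by omega]
    norm_num

theorem sign_calc {t K : ZMod 3} {d : ℤ} (h : ¬ 3 ∣ d) {c : ℕ} {w : ℤ}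
    (hw : w = CL.w3 t K * ((-1) ^ c * jacobiSym |d| 3) *
      if t = 0 ∧ K = 2 then jacobiSym d 3 else 1) :
    w = if Even c ↔ (0 < d ↔ if d % 3 = 1 then t = 1 ∨ t = 0 ∧ K = 0 else t = 2 ∨ t = 0 ∧ K = 1)
      then 1 else -1 := by
  have k : ∀ t K : ZMod 3, (CL.w3 t K * if t = 0 ∧ K = 2 then -1 else 1) =
      if t = 2 ∨ t = 0 ∧ K = 1 then -1 else 1 := by decide
  have e : w = (-1) ^ c * ((if 0 < d then 1 else -1) *
      if (if d % 3 = 1 then t = 1 ∨ t = 0 ∧ K = 0 else t = 2 ∨ t = 0 ∧ K = 1) then 1 else -1) := by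
    have a : jacobiSym |d| 3 = (if 0 < d then 1 else -1) * jacobiSym d 3 := by
      split_ifs with c
      · rw [abs_of_pos c, one_mul]
      · rw [abs_of_nonpos (not_lt.1 c), ← neg_one_mul, jacobiSym.mul_left]
        norm_num
    rw [hw, a, jac_three h]
    by_cases b : d % 3 = 1
    · simp only [if_pos b, ite_self, CL.w3]
      ring
    · simp only [if_neg b]
      rw [show ∀ x y z u : ℤ, x * (y * (z * -1)) * u = y * (z * -(x * u)) from
        fun _ _ _ _ => by ring, k]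
      congr 2
      split_ifs <;> rfl
  rw [e]
  by_cases b2 : if d % 3 = 1 then t = 1 ∨ t = 0 ∧ K = 0 else t = 2 ∨ t = 0 ∧ K = 1
  all_goals rcases Nat.even_or_odd c with b | b
  all_goals rw [b.neg_one_pow]
  all_goals try rw [← Nat.not_even_iff_odd] at b
  all_goals by_cases b1 : 0 < d <;> simp only [b, b1, b2] <;> simp

theorem exists_tw {n : ℕ} (hn : n ≠ 0) {D : ℤ} (hD : D ≠ 0) :
    ∃ (φ : O → O) (ξ : ℤ → ℤ) (M : ℕ) (ν : O) (w : ℂ) (N : ℤ),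
    Gch N φ ∧ N ∣ 3 * n ∧ 0 < M ∧ (Per M fun α => φ α * (ξ (nm α) : ℤ)) ∧ ν ≠ 0 ∧ w ≠ 0 ∧
    SD M (fun α => toC (φ α * (ξ (nm α) : ℤ))) ν w ∧ (¬ Wq D n → w = -1) ∧
    (∀ (p : ℕ) [Fact p.Prime] (z : O) (ρ : O →+* ZMod p) (χ : MulChar (ZMod p) O), Qc p z ρ χ →
      ¬ p ∣ n → φ z = star (χ n)) ∧
    ξ 1 = 1 ∧ (∀ a b, ξ (a * b) = ξ a * ξ b) ∧ (∀ a, nm (ξ a) ≤ 1) ∧
    ∀ p : ℕ, p.Prime → p ≠ 2 → ¬ (p : ℤ) ∣ d3 D → ξ p = jacobiSym (d3 D) p := by
  obtain ⟨v, hv⟩ : ∃ v : ℕ → ℕ, ∀ q, n.factorization q = v q := ⟨_, fun _ => rfl⟩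
  obtain ⟨Q, hQd⟩ : ∃ Q, Q = (n.primeFactors.erase 3).filter fun q => v q % 3 ≠ 0 := ⟨_, rfl⟩
  have hX : ∀ q : ℕ, ∃ X, q.Prime → q ≠ 3 → IsX q X := fun q => by
    by_cases h : q.Prime ∧ q ≠ 3
    · exact (exists_X h.1 h.2).imp fun _ k _ _ => k
    · exact ⟨id, fun a b => absurd ⟨a, b⟩ h⟩
  choose X hX using hX
  obtain ⟨K, N, h1, h2, h3, h4⟩ := exists_phi0 hn hv hQd hX
  have hd := (d3_spec hD).2
  obtain ⟨R, m, η, r1, r2, r3, r4, r5⟩ := exists_quad (d3_ne hD) hd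
  have hQ : ∀ q ∈ Q, q.Prime ∧ q ≠ 3 ∧ v q % 3 ≠ 0 := fun q h => by
    rw [hQd, mem_filter, mem_erase] at h
    exact ⟨Nat.prime_of_mem_primeFactors h.1.2, h.1.1, h.2⟩
  have hP : ∀ q ∈ Q ∪ R, q.Prime ∧ q ≠ 3 ∧ Lc q (if q ∈ R then m q else q) fun α =>
      star (X q α) ^ (if q ∈ Q then v q else 0) * (if q ∈ R then η q (nm α) else 1 : ℤ) := by
    intro q hq
    by_cases c : q ∈ R
    · simp only [if_pos c]
      exact ⟨(r1 q c).1, (r1 q c).2.1, (r1 q c).2.2 _ (hX q (r1 q c).1 (r1 q c).2.1) _⟩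
    · have e := (mem_union.1 hq).resolve_right c
      simp only [if_neg c, if_pos e, Int.cast_one, mul_one]
      exact ⟨(hQ q e).1, (hQ q e).2.1, lc_cub (hQ q e).1 (hX q (hQ q e).1 (hQ q e).2.1)
        (hQ q e).2.2⟩
  have e1 : ∀ α, ∏ q ∈ Q ∪ R, star (X q α) ^ (if q ∈ Q then v q else 0) *
      (if q ∈ R then η q (nm α) else 1 : ℤ) =
        (∏ q ∈ Q, star (X q α) ^ v q) * (∏ q ∈ R, η q (nm α) : ℤ) := fun α => by
    rw [prod_mul_distrib, ← Int.cast_prod, prod_ite_mem, union_inter_cancel_right]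
    simp only [pow_ite, pow_zero]
    rw [prod_ite_mem, union_inter_cancel_left]
  have m1 : ∀ a b, ∏ q ∈ R, η q (a * b) = (∏ q ∈ R, η q a) * ∏ q ∈ R, η q b := fun a b => by
    rw [← prod_mul_distrib]
    exact prod_congr rfl fun q hq => (r3 q hq).1 a b
  have m0 : ∏ q ∈ R, η q 1 = 1 := prod_eq_one fun q hq => (r3 q hq).2.1
  have m3 := r4 3 Nat.prime_three (by decide) hd
  have m4 : jacobiSym (d3 D) 3 * jacobiSym (d3 D) 3 = 1 := by
    rw [jac_three hd]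
    split_ifs <;> rfl
  have e2 : ∏ q ∈ R, η q (nm (nu (v 3) K)) =
      if (v 3 : ZMod 3) = 0 ∧ K = 2 then jacobiSym (d3 D) 3 else 1 := by
    unfold nu
    by_cases a : (v 3 : ZMod 3) = 0
    · by_cases b : K = 2
      · rw [if_neg (not_not.2 a), if_neg (not_not.2 b), if_pos ⟨a, b⟩,
          show nm ⟨3, 6⟩ = (3 : ℕ) * (3 : ℕ) * (3 : ℕ) by decide, m1, m1, m3, m4, one_mul]
      · rw [if_neg (not_not.2 a), if_pos b, if_neg fun c => b c.2,
          show nm 3 = (3 : ℕ) * (3 : ℕ) by decide, m1, m3, m4]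
    · rw [if_pos a, if_neg fun c => a c.1, show nm 1 = 1 by decide, m0]
  have e3 : ∏ q ∈ Q ∪ R, f8s (if q ∈ R then m q else q) = (-1) ^ (n.primeFactors.filter fun q =>
      q % 3 = 2 ∧ n.factorization q % 3 ≠ 0 ∧ Unr D q).card * jacobiSym |d3 D| 3 := by
    rw [← sdiff_union_self_eq_union, prod_union sdiff_disjoint, ← r5,
      prod_congr rfl fun q hq => by rw [if_neg (mem_sdiff.1 hq).2],
      prod_congr (s₁ := R) rfl fun q hq => by rw [if_pos hq], f8_sgn _ fun q hq =>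
        f8_mod (hQ q (mem_sdiff.1 hq).1).1 (hQ q (mem_sdiff.1 hq).1).2.1]
    congr 3
    ext q
    simp only [hQd, mem_filter, mem_sdiff, mem_erase, hv, Unr]
    constructor
    · rintro ⟨⟨⟨⟨a, b⟩, c⟩, d⟩, e⟩
      rw [r2 q (Nat.prime_of_mem_primeFactors b), d3_fac hD a, d3_fac hD (by decide)] at d
      exact ⟨b, e, c, d⟩
    · rintro ⟨b, e, c, d⟩
      have a : q ≠ 3 := by omega
      rw [← d3_fac hD a, ← d3_fac hD (q := 2) (by decide),
        ← r2 q (Nat.prime_of_mem_primeFactors b)] at d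
      exact ⟨⟨⟨⟨a, b⟩, c⟩, d⟩, e⟩
  have s1 := prod_sd (v 3) K hP
  have s2 := prod_per (v 3) K hP
  simp only [e1, ← mul_assoc] at s1 s2
  rw [prod_eq_one (s := Q) fun q hq => by
    rw [(hX q (hQ q hq).1 (hQ q hq).2.1).at_nu (hQ q hq).1 (hQ q hq).2.1, star_one, one_pow],
    one_mul, map_intCast, ← Int.cast_mul, e2, e3, sign_calc hd rfl] at s1
  refine ⟨f8phi (v 3) K X v Q, fun a => ∏ q ∈ R, η q a, _, nu (v 3) K, _, N, h1, h2,
    prod_pos' hP, s2, (by decide : ∀ t K, nu t K ≠ 0) _ K, ?_, s1, fun h => ?_, h4, m0, m1,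
    fun a => ?_, r4⟩
  · split_ifs <;> norm_num
  · have e4 : ∀ t : ZMod 3, (t = 1 ↔ t.val = 1) ∧ (t = 0 ↔ t.val = 0) ∧ (t = 2 ↔ t.val = 2) := by
      decide
    rw [Wq, W3, hv, f8R_iff h3, f8R_iff' h3, ← ZMod.val_natCast (n := 3) (v 3), ← (e4 _).1,
      ← (e4 _).2.1, ← (e4 _).2.2] at h
    rw [if_neg h]
    norm_num
  · rw [Int.cast_prod]
    exact prod_induction _ (fun x : O => nm x ≤ 1) (fun _ _ => f8_bd) (by decide) fun q h => by
      rcases (r3 q h).2.2 a with e | e | e <;> rw [e] <;> decide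

end Pool.Agent.Lib.MP_696deb_nt.CQ
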