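import Pool.Agent.Lib.MP_696deb_nt.CL.F3
import Pool.Agent.Lib.MP_696deb_nt.CL.F7
import Pool.Agent.Lib.MP_696deb_nt.CQ.A
import Pool.Agent.Lib.MP_696deb_nt.CQ.D

/-! Analytic continuation and the central zero for a reduced pair. -/

set_option autoImplicit false

open scoped Classical Real
open Complex Finset

namespace Pool.Agent.Lib.MP_696deb_nt.CQ

open CL

theorem jac_d3 {D : ℤ} (hD : D ≠ 0) {p : ℕ} (h2 : Odd p) (h : p % 3 = 1) :
    jacobiSym D p = jacobiSym (d3 D) p := by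
  have e : jacobiSym (-3) p = 1 := by
    rw [show (-3 : ℤ) = qst 3 by decide, qst_jac (by decide) h2, jac_three (by omega),
      if_pos (by omega)]
  conv_lhs => rw [(d3_spec hD).1]
  rw [jacobiSym.mul_left, jacobiSym.pow_left, e, one_pow, one_mul]

theorem fe0 {b D : ℤ} {n : ℕ} (hn : n ≠ 0) (h : 4 * b * D ^ 3 = -27 * (n : ℤ) ^ 2)
    (hN : ∀ p : ℕ, p.Prime → p ∣ n → (p : ℤ) ∣ 6 * b) :
    ∃ F : ℂ → ℂ, Differentiable ℂ F ∧
    (∀ s : ℂ, (3 : ℝ) / 2 < s.re → HasProd (fun p : ℕ =>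
      if p.Prime ∧ ¬ ((p : ℤ) ∣ 2 * (-4 * 0 ^ 3 - 27 * b ^ 2)) then
        (1 - ((p : ℂ) - (cnb b p : ℂ)) * (p : ℂ) ^ (-s) + (p : ℂ) ^ (1 - 2 * s))⁻¹ else 1) (F s)) ∧
    (¬ Wq D n → F 1 = 0) := by
  have hD : D ≠ 0 := by
    rintro rfl
    exact hn (by simpa using h)
  have hb : b ≠ 0 := by
    rintro rfl
    exact hn (by simpa using h)
  obtain ⟨φ, ξ, M, ν, w, N, h1, h0, h2, h3, h4, h5, h6, h7, h8, x1, x2, x3, x4⟩ := exists_tw hn hD
  obtain ⟨a, a1, a2, a3, a4⟩ := h1.hecke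
  obtain ⟨l, l1, l2⟩ := th_fe h2 (f := fun α => toC (φ α * (ξ (nm α) : ℤ)))
    (fun α γ => congrArg _ (h3 α γ)) h4 h6
  obtain ⟨L, b1, b2, b3⟩ := analytic (f := fun α => toC (φ α * (ξ (nm α) : ℤ)))
    (a := fun n => (ξ n : ℂ) * (a n : ℂ)) (fun α => by
      have k : ((nm (φ α * (ξ (nm α) : ℤ)) : ℤ) : ℝ) ≤ 1 := by
        exact_mod_cast f8_bd (h1.bd α) (x3 _)
      rw [← normSq_toC, Complex.normSq_eq_norm_sq] at k
      exact (sq_le_one_iff₀ (norm_nonneg _)).1 k) l1 h5 l2 fun n => by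
      have k := congrArg toC (a2 n)
      rw [map_sum, map_mul, map_ofNat, map_intCast] at k
      rw [mul_left_comm, ← k, mul_sum]
      refine sum_congr rfl fun α hα => ?_
      rw [mem_reps.1 hα, map_mul, map_mul, map_intCast]
      ring
  have m1 : 2 * (-4 * 0 ^ 3 - 27 * b ^ 2) = 6 * b * (-(9 * b)) := by ring
  have m0 : 2 * (-4 * 0 ^ 3 - 27 * b ^ 2) ≠ 0 := by
    rw [m1]
    simp [hb]
  refine ⟨fun s => (∏ p ∈ (2 * (-4 * 0 ^ 3 - 27 * b ^ 2)).natAbs.primeFactors,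
    loc (fun n => (ξ n : ℂ)) a (fun p => if (p : ℤ) ∣ N then 0 else p) p s) * L s,
    (Differentiable.fun_finsetProd fun p hp =>
      loc_differentiable _ _ _ (Nat.mem_primeFactors.mp hp).1.ne_zero).mul b1, fun s hs => ?_,
    fun k => by simp only [b3 (h7 k), mul_zero]⟩
  simp only [(b2 s hs).2]
  refine hasProd_frozen a1 (by rw [Nat.cast_one, x1, Int.cast_one])
    (fun _ _ => by rw [Nat.cast_mul, x2, Int.cast_mul]) (b2 s hs).1 m0
    (fun p => (p : ℂ) - (cnb b p : ℂ)) fun p hp k => ?_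
  have := Fact.mk hp
  have hp' : Prime (p : ℤ) := Nat.prime_iff_prime_int.1 hp
  have k0 : ¬ (p : ℤ) ∣ 6 * b := fun e => k (m1 ▸ e.mul_right _)
  have k4 : ¬ p ∣ n := fun e => k0 (hN p hp e)
  have k3 : ¬ (p : ℤ) ∣ 3 := fun e => k0 ((e.trans ⟨2, rfl⟩).mul_right b)
  have k1 : ¬ (p : ℤ) ∣ 3 * n := fun e =>
    (hp'.dvd_or_dvd e).elim k3 fun e => k4 (Int.natCast_dvd_natCast.1 e)
  have k2 : p ≠ 2 := fun e => k0 (e ▸ Dvd.dvd.mul_right ⟨3, rfl⟩ b)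
  have k5 : ¬ (p : ℤ) ∣ D := fun e => k1 (hp'.dvd_of_dvd_pow (n := 3) (by
    rw [show (3 * n : ℤ) ^ 3 = D * (-(4 * b * D ^ 2) * n) by linear_combination (n : ℤ) * h]
    exact e.mul_right _))
  have k6 : ¬ (p : ℤ) ∣ d3 D := fun e => k5 ((d3_spec hD).1 ▸ e.mul_left _)
  have k7 : ¬ 3 ∣ p := fun e => k3 (by
    rw [← (Nat.prime_dvd_prime_iff_eq Nat.prime_three hp).1 e]
    exact dvd_rfl)
  refine ⟨?_, ?_, if_neg fun e => k1 (e.trans h0)⟩
  · have k8 := count_tw k2 h k5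
    suffices e : ξ p * a p = p - cnb b p by exact_mod_cast congrArg (Int.cast : ℤ → ℂ) e
    rw [k8]
    rcases (by omega : p % 3 = 1 ∨ p % 3 = 2) with e | e
    · obtain ⟨z, ρ, χ, hq⟩ := exists_qc e
      have k9 := a4 p z hp e hq.norm
      rw [h8 p z ρ χ hq k4, star_mul', star_star, ← hq.count k4, Int.cast_inj] at k9
      rw [k9, x4 p hp k2 k6, jac_d3 hD (hp.odd_of_ne_two k2) e]
    · rw [a3 p hp e, count_two e, sub_self, mul_zero, mul_zero]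
  · rw [x4 p hp k2 k6, ← Int.cast_pow, ← jacobiSym.pow_left, jac_sq hp k6, Int.cast_one]

end Pool.Agent.Lib.MP_696deb_nt.CQ
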