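import Pool.Agent.Lib.MP_696deb_nt.CQ.E
import Pool.Agent.Lib.MP_696deb_nt.CQ.F

/-! Analytic continuation and the central zero for `y ^ 2 = x ^ 3 + b`. -/

set_option autoImplicit false

open scoped Classical Real
open Complex Finset

namespace Pool.Agent.Lib.MP_696deb_nt.CQ

theorem wq_iff {b D : ℤ} {n : ℕ} (hn : n ≠ 0) (h : 4 * b * D ^ 3 = -27 * (n : ℤ) ^ 2) :
    Wq D n ↔ rootNumber b = 1 := wq_iff' hn h

theorem fe {b D : ℤ} {n : ℕ} (hn : n ≠ 0) (h : 4 * b * D ^ 3 = -27 * (n : ℤ) ^ 2) :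
    ∃ F : ℂ → ℂ, Differentiable ℂ F ∧
    (∀ s : ℂ, (3 : ℝ) / 2 < s.re → HasProd (fun p : ℕ =>
      if p.Prime ∧ ¬ ((p : ℤ) ∣ 2 * (-4 * 0 ^ 3 - 27 * b ^ 2)) then
        (1 - ((p : ℂ) - (Nat.card {q : ZMod p × ZMod p //
          q.2 ^ 2 = q.1 ^ 3 + ((0 : ℤ) : ZMod p) * q.1 + (b : ZMod p)} : ℂ)) * (p : ℂ) ^ (-s) +
            (p : ℂ) ^ (1 - 2 * s))⁻¹ else 1) (F s)) ∧
    (¬ Wq D n → F 1 = 0) := by
  have hb := Int.natAbs_ne_zero.2 (b_ne hn h)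
  have h0 : 2 * b.natAbs ^ 2 ≠ 0 := by positivity
  have h1 : 4 * b * (-3 * b) ^ 3 = -27 * ((2 * b.natAbs ^ 2 : ℕ) : ℤ) ^ 2 := by
    push_cast
    rw [sq_abs]
    ring
  obtain ⟨F, h2, h3, h4⟩ := fe0 h0 h1 fun p hp e => by
    rcases (Nat.Prime.dvd_mul hp).1 e with e | e
    · exact ((Int.natCast_dvd_natCast.2 e).trans ⟨3, rfl⟩).mul_right b
    · exact (Int.natCast_dvd.2 (hp.dvd_of_dvd_pow e)).mul_left 6
  exact ⟨F, h2, h3, fun k => h4 fun e => k ((wq_iff hn h).2 ((wq_iff h0 h1).1 e))⟩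

end Pool.Agent.Lib.MP_696deb_nt.CQ
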