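import Pool.Agent.Lib.MP_696deb_nt.CL.F8

/-! Local characters. -/

set_option autoImplicit false

open scoped Classical Real
open Complex Finset

namespace Pool.Agent.Lib.MP_696deb_nt.CQ

open CL

/-- A self-dual character modulo a power of `q`. -/
structure Lc (q m : ℕ) (Y : O → O) : Prop where
  pw : ∃ j, m = q ^ j
  mul : ∀ α β, Y (α * β) = Y α * Y β
  per : Per m Y
  int : ∀ n : ℤ, ¬ (q : ℤ) ∣ n → Y n = 1
  ft : ∀ ξ, FT m (fun α => toC (Y α)) ξ = m * toC (Y ξ)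

theorem sd_mul {M q m : ℕ} (hM : 0 < M) (hq : q.Prime) (h : ¬ q ∣ M) {f : O → ℂ} {ν : O}
    {w s : ℂ} (hf : SD M f ν w) (per : Per M f) (hs : ∀ α, f (m * α) = s * f α) {Y : O → O}
    (hY : Lc q m Y) : SD (M * m) (fun α => f α * toC (Y α)) ν (w * s * toC (Y ν)) := by
  obtain ⟨j, hj⟩ := hY.pw
  have h1 : Y M = 1 := by simpa using hY.int M fun h' => h (Int.natCast_dvd_natCast.1 h')
  have key : ∀ ξ, FT (M * m) (fun α => f α * toC (Y α)) ξ =
      s * FT M f ξ * (m * toC (Y ξ)) := fun ξ => by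
    rw [FT_mul hM (hj ▸ pow_pos hq.pos j)
      (hj ▸ ((Nat.Prime.coprime_iff_not_dvd hq).2 h).symm.pow_right j) per
      (g := fun α => toC (Y α)) (fun α γ => by simp only [hY.per α γ])]
    simp only [hY.mul (M : O), h1, one_mul, hY.ft]
    congr 1
    simp only [FT, hs, mul_sum, mul_assoc]
  refine ⟨fun ξ hξ => by rw [key, hf.zero ξ hξ, mul_zero, zero_mul], fun η => ?_⟩
  rw [key, hf.eq, hY.mul ν, map_mul]
  push_cast
  ring

section prod
variable (t K : ZMod 3) {m : ℕ → ℕ} {Y : ℕ → O → O} {P : Finset ℕ}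
  (hP : ∀ q ∈ P, q.Prime ∧ q ≠ 3 ∧ Lc q (m q) (Y q))
include hP

theorem prod_per : Per (9 * ∏ q ∈ P, m q) fun α => ph3 t K α * ∏ q ∈ P, Y q α := fun α γ => by
  dsimp only
  rw [f8_per (ph3_per t K) (dvd_mul_right _ _), prod_congr rfl fun q hq => by
    rw [f8_per (hP q hq).2.2.per ((dvd_prod_of_mem _ hq).mul_left 9)]]

theorem prod_pos' : 0 < 9 * ∏ q ∈ P, m q :=
  Nat.mul_pos (by norm_num) (prod_pos fun q hq => by
    obtain ⟨j, hj⟩ := (hP q hq).2.2.pw
    exact hj ▸ pow_pos (hP q hq).1.pos j)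

theorem prod_sd : SD (9 * ∏ q ∈ P, m q) (fun α => toC (ph3 t K α * ∏ q ∈ P, Y q α)) (nu t K)
    (((CL.w3 t K * ∏ q ∈ P, f8s (m q) : ℤ) : ℂ) * toC (∏ q ∈ P, Y q (nu t K))) := by
  induction P using Finset.induction_on with
  | empty => simpa using ph3_sd t K
  | insert a s ha ih =>
    have hs := fun q hq => hP q (mem_insert_of_mem hq)
    obtain ⟨a1, a2, a3⟩ := hP a (mem_insert_self a s)
    obtain ⟨j, hj⟩ := a3.pw
    have h1 : ¬ a ∣ 9 * ∏ q ∈ s, m q := fun e => by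
      rcases (Nat.Prime.dvd_mul a1).1 e with e | e
      · exact a2 ((Nat.prime_dvd_prime_iff_eq a1 Nat.prime_three).1
          (a1.dvd_of_dvd_pow (n := 2) e))
      · obtain ⟨q, hq, e⟩ := a1.prime.exists_mem_finset_dvd e
        obtain ⟨i, hi⟩ := (hs q hq).2.2.pw
        exact ha (((Nat.prime_dvd_prime_iff_eq a1 (hs q hq).1).1
          (a1.dvd_of_dvd_pow (hi ▸ e))) ▸ hq)
    have h2 : ∀ q : ℕ, q.Prime → q ≠ a → ¬ q ∣ m a := fun q hq e d =>
      e ((Nat.prime_dvd_prime_iff_eq hq a1).1 (hq.dvd_of_dvd_pow (hj ▸ d)))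
    have k := sd_mul (prod_pos' hs) a1 h1 (s := (f8s (m a) : ℂ)) (ih hs)
      (fun α γ => congrArg _ (prod_per t K hs α γ)) (fun α => by
        rw [ph3_mul, ph3_nat t K (h2 3 Nat.prime_three a2.symm), prod_congr rfl fun q hq => by
          rw [(hs q hq).2.2.mul, ← Int.cast_natCast, (hs q hq).2.2.int _ fun d =>
            h2 q (hs q hq).1 (fun e => ha (e ▸ hq)) (Int.natCast_dvd_natCast.1 d), one_mul], f8s]
        split_ifs <;> simp) a3
    convert k using 1
    · rw [prod_insert ha]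
      ring
    · funext α
      rw [← map_mul, prod_insert ha]
      congr 1
      ring
    · rw [prod_insert ha, prod_insert ha, map_mul]
      push_cast
      ring

end prod

theorem nm_per (m : ℕ) (α γ : O) : ∃ k : ℤ, nm (α + m * γ) = nm α + m * k :=
  ⟨2 * α.re * γ.re - α.re * γ.im - α.im * γ.re + 2 * α.im * γ.im + m * nm γ, by
    simp only [nm, QuadraticAlgebra.re_add, QuadraticAlgebra.im_add, QuadraticAlgebra.re_mul,
      QuadraticAlgebra.im_mul, QuadraticAlgebra.re_natCast, QuadraticAlgebra.im_natCast]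
    ring⟩

section X
variable {q : ℕ} {X : O → O}

theorem lc_cub (hq : q.Prime) (hX : IsX q X) {e : ℕ} (he : e % 3 ≠ 0) :
    Lc q q fun α => star (X α) ^ e := by
  have he0 : e ≠ 0 := fun h0 => he (by rw [h0])
  refine ⟨⟨1, (pow_one q).symm⟩, fun α β => by rw [hX.mul, star_mul', mul_pow],
    fun α γ => by simp only [hX.per α γ], fun n hn => by rw [hX.int n hn, star_one, one_pow],
    FT_prime (Y := fun α => toC (star (X α) ^ e)) hq (fun α γ => by simp only [hX.per α γ])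
      (fun α β => by rw [hX.mul, star_mul', mul_pow, map_mul])
      (fun α hα => by rw [hX.zero α hα, star_zero, zero_pow he0, map_zero])
      (fun n hn => by rw [hX.int n hn, star_one, one_pow, map_one]) ?_⟩
  obtain ⟨α, h2, h3⟩ := hX.ne
  refine ⟨α, h2, fun h4 => h3 ?_⟩
  have h5 : star (X α) ^ e = 1 := toC_inj (h4.trans (map_one toC).symm)
  obtain ⟨k, hk⟩ := cube_eq_one (hX.cube α h2)
  rw [hk, ← op_neg, f8_pow, ← op_zero] at h5
  have h6 := op_inj _ _ h5
  have h7 : (e : ZMod 3) ≠ 0 := fun c =>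
    he (Nat.mod_eq_zero_of_dvd ((ZMod.natCast_eq_zero_iff _ 3).1 c))
  rw [hk, neg_eq_zero.1 ((mul_eq_zero.1 h6).resolve_left h7), op_zero]

theorem exists_nonres (hq : q.Prime) (h2 : q ≠ 2) (h3 : q ≠ 3) :
    ∃ α : O, jacobiSym (nm α) q = -1 := by
  have := Fact.mk hq
  have h : ringChar (ZMod q) ≠ 2 := by rwa [ZMod.ringChar_zmod_n]
  obtain ⟨c, hc⟩ := FiniteField.exists_nonsquare h
  have t0 : (3 : ZMod q) ≠ 0 := fun k => h3 ((Nat.prime_dvd_prime_iff_eq hq Nat.prime_three).1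
    ((ZMod.natCast_eq_zero_iff 3 q).1 (by exact_mod_cast k)))
  obtain ⟨a, b, e⟩ := FiniteField.exists_root_sum_quadratic (R := ZMod q)
    (f := Polynomial.X ^ 2) (g := Polynomial.C 3 * Polynomial.X ^ 2 - Polynomial.C c)
    (Polynomial.degree_X_pow 2) (by
      rw [Polynomial.degree_sub_C (by rw [Polynomial.degree_C_mul_X_pow 2 t0]; decide),
        Polynomial.degree_C_mul_X_pow 2 t0]
      rfl) (by rw [ZMod.card]; exact hq.mod_two_eq_one_iff_ne_two.2 h2)
  obtain ⟨a, rfl⟩ := ZMod.intCast_surjective a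
  obtain ⟨b, rfl⟩ := ZMod.intCast_surjective b
  refine ⟨⟨a + b, 2 * b⟩, ?_⟩
  rw [← jacobiSym.legendreSym.to_jacobiSym, legendreSym.eq_neg_one_iff]
  convert hc
  simp only [Polynomial.eval_pow, Polynomial.eval_X, Polynomial.eval_sub, Polynomial.eval_mul,
    Polynomial.eval_C] at e
  simp only [nm]
  push_cast
  linear_combination e

theorem jac_sq (hq : q.Prime) {n : ℤ} (hn : ¬ (q : ℤ) ∣ n) : jacobiSym (n ^ 2) q = 1 :=
  jacobiSym.sq_one' (by
    rw [Int.gcd_comm]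
    exact Int.isCoprime_iff_gcd_eq_one.1
      ((Nat.prime_iff_prime_int.1 hq).irreducible.coprime_iff_not_dvd.2 hn))

theorem jac_zero (hq : q.Prime) {n : ℤ} (hn : (q : ℤ) ∣ n) : jacobiSym n q = 0 := by
  rw [jacobiSym.mod_left, Int.emod_eq_zero_of_dvd hn, jacobiSym.zero_left hq.one_lt]

theorem lc_mix (hq : q.Prime) (h2 : q ≠ 2) (h3 : q ≠ 3) (hX : IsX q X) (e : ℕ) :
    Lc q q fun α => star (X α) ^ e * (jacobiSym (nm α) q : ℤ) := by
  have a1 : ∀ α β, star (X (α * β)) ^ e * (jacobiSym (nm (α * β)) q : ℤ) =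
      star (X α) ^ e * (jacobiSym (nm α) q : ℤ) * (star (X β) ^ e * (jacobiSym (nm β) q : ℤ)) :=
    fun α β => by
      rw [hX.mul, star_mul', mul_pow, nm_mul, jacobiSym.mul_left, Int.cast_mul]
      ring
  have a2 : Per q fun α => star (X α) ^ e * (jacobiSym (nm α) q : ℤ) := fun α γ => by
    obtain ⟨k, hk⟩ := nm_per q α γ
    simp only [hX.per α γ, hk]
    rw [jacobiSym.mod_left, Int.add_mul_emod_self_left, ← jacobiSym.mod_left]
  have a3 : ∀ n : ℤ, ¬ (q : ℤ) ∣ n → star (X n) ^ e * (jacobiSym (nm n) q : ℤ) = 1 :=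
    fun n hn => by rw [hX.int n hn, star_one, one_pow, nm_int, jac_sq hq hn, Int.cast_one, one_mul]
  refine ⟨⟨1, (pow_one q).symm⟩, a1, a2, a3,
    FT_prime (Y := fun α => toC (star (X α) ^ e * (jacobiSym (nm α) q : ℤ))) hq
      (fun α γ => congrArg toC (a2 α γ)) (fun α β => by rw [a1, map_mul])
      (fun α hα => by rw [jac_zero hq hα, Int.cast_zero, mul_zero, map_zero])
      (fun n hn => by rw [a3 n hn, map_one]) ?_⟩
  obtain ⟨α, h⟩ := exists_nonres hq h2 h3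
  have h4 : ¬ (q : ℤ) ∣ nm α := fun c => by
    rw [jac_zero hq c] at h
    omega
  refine ⟨α, h4, fun h5 => ?_⟩
  have h6 := toC_inj (h5.trans (map_one toC).symm)
  obtain ⟨k, hk⟩ := cube_eq_one (hX.cube α h4)
  rw [h, hk, ← op_neg, f8_pow] at h6
  exact (by decide : ∀ k, op k * ((-1 : ℤ) : O) ≠ 1) _ h6

end X

end Pool.Agent.Lib.MP_696deb_nt.CQ
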