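import Pool.Agent.Lib.MP_696deb_nt.CQ.B

/-! The local character at two. -/

set_option autoImplicit false

open scoped Classical Real
open Complex Finset

namespace Pool.Agent.Lib.MP_696deb_nt.CQ

open CL

/-- The quadratic characters modulo eight. -/
def c8 (δ : ℤ) (m : ZMod 8) : ℤ :=
  if m.val % 2 = 0 then 0 else if δ = -1 then (if m.val % 4 = 1 then 1 else -1)
  else if δ = 2 then (if m = 1 ∨ m = 7 then 1 else -1) else (if m = 1 ∨ m = 3 then 1 else -1)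

/-- The conductor. -/
def m2 (δ : ℤ) : ℕ := if δ = -1 then 4 else 8

/-- The ramified classes at two. -/
def Dl (δ : ℤ) : Prop := δ = -1 ∨ δ = 2 ∨ δ = -2

/-- The cubic character modulo two. -/
def x2 (a b : ZMod 8) : O :=
  if a.val % 2 = 0 then (if b.val % 2 = 0 then 0 else om) else (if b.val % 2 = 0 then 1 else star om)

/-- The local character on residues. -/
def y2 (δ : ℤ) (k : Fin 3) (a b : ZMod 8) : O :=
  star (x2 a b) ^ k.val * (c8 δ (a ^ 2 - a * b + b ^ 2) : ℤ)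

/-- Coordinates for the powers of an eighth root of unity. -/
def b2B (q : O) (r : ℕ) : O × O × O × O :=
  if r = 0 then (q, 0, 0, 0) else if r = 1 then (0, q, 0, 0) else if r = 2 then (0, 0, q, 0)
  else if r = 3 then (0, 0, 0, q) else if r = 4 then (-q, 0, 0, 0) else if r = 5 then (0, -q, 0, 0)
  else if r = 6 then (0, 0, -q, 0) else (0, 0, 0, -q)

/-- The four parts of the Gauss sum. -/
def b2T (δ : ℤ) (k : Fin 3) (a b : ℕ) : O × O × O × O :=
  ∑ x ∈ range (m2 δ), ∑ y ∈ range (m2 δ),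
    b2B (y2 δ k (x : ZMod 8) (y : ZMod 8)) (8 / m2 δ * (y * a + x * b) % 8)

theorem b2_T {δ : ℤ} (h : Dl δ) : ∀ (k : Fin 3) (a b : ZMod 8),
    b2T δ k a.val (-b).val = ((m2 δ : O) * y2 δ k a b, 0, 0, 0) := by
  rcases h with rfl | rfl | rfl <;> decide +kernel

theorem c8_mul {δ : ℤ} (h : Dl δ) : ∀ a b : ZMod 8, c8 δ (a * b) = c8 δ a * c8 δ b := by
  rcases h with rfl | rfl | rfl <;> decide +kernel

theorem c8_per {δ : ℤ} (h : Dl δ) : ∀ a k : ZMod 8, c8 δ (a + m2 δ * k) = c8 δ a := by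
  rcases h with rfl | rfl | rfl <;> decide +kernel

theorem c8_odd {δ : ℤ} (h : Dl δ) : ∀ a : ZMod 8, c8 δ ((2 * a + 1) ^ 2) = 1 := by
  rcases h with rfl | rfl | rfl <;> decide +kernel

theorem c8_one {δ : ℤ} (h : Dl δ) : c8 δ 1 = 1 := by
  rcases h with rfl | rfl | rfl <;> decide +kernel

theorem c8_bd (δ : ℤ) (a : ZMod 8) : c8 δ a = 0 ∨ c8 δ a = 1 ∨ c8 δ a = -1 := by
  unfold c8
  split_ifs <;> simp

theorem y2_pow (δ : ℤ) (a b : ZMod 8) (e : ℕ) :
    star (x2 a b) ^ e * (c8 δ (a ^ 2 - a * b + b ^ 2) : ℤ) =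
      y2 δ ⟨e % 3, Nat.mod_lt _ three_pos⟩ a b := by
  have k : ∀ a b : ZMod 8, star (x2 a b) ^ 3 = 1 ∨ (a ^ 2 - a * b + b ^ 2).val % 2 = 0 := by
    decide +kernel
  rcases k a b with k | k
  · rw [y2, ← Nat.mod_add_div e 3, pow_add, pow_mul, k, one_pow, mul_one, Nat.mod_add_div]
  · rw [y2, c8, if_pos k, Int.cast_zero, mul_zero, mul_zero]

theorem c8_jac {δ : ℤ} (h : Dl δ) {p : ℕ} (hp : Odd p) : jacobiSym δ p = c8 δ p := by
  rcases h with rfl | rfl | rfl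
  · rw [jacobiSym.at_neg_one hp, ← map_natCast (ZMod.castHom (show 4 ∣ 8 by norm_num) (ZMod 4))]
    generalize (p : ZMod 8) = a
    revert a
    decide +kernel
  · rw [jacobiSym.at_two hp]
    generalize (p : ZMod 8) = a
    revert a
    decide +kernel
  · rw [jacobiSym.at_neg_two hp]
    generalize (p : ZMod 8) = a
    revert a
    decide +kernel

theorem b2_zeta : cexp (2 * π * I / 8) ^ 4 = -1 := by
  rw [← Complex.exp_nat_mul, ← exp_pi_mul_I]
  congr 1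
  push_cast
  ring

theorem b2_pow (q : O) {r : ℕ} (hr : r < 8) : toC q * cexp (2 * π * I / 8) ^ r =
    toC (b2B q r).1 + toC (b2B q r).2.1 * cexp (2 * π * I / 8) +
      toC (b2B q r).2.2.1 * cexp (2 * π * I / 8) ^ 2 +
        toC (b2B q r).2.2.2 * cexp (2 * π * I / 8) ^ 3 := by
  have h := b2_zeta
  generalize cexp (2 * π * I / 8) = z at h
  interval_cases r <;> simp only [b2B, Nat.reduceEqDiff, OfNat.ofNat_ne_zero, OfNat.ofNat_ne_one,
    one_ne_zero, if_true, if_false, map_neg, map_zero]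
  · ring
  · ring
  · ring
  · ring
  · linear_combination toC q * h
  · linear_combination toC q * z * h
  · linear_combination toC q * z ^ 2 * h
  · linear_combination toC q * z ^ 3 * h

theorem b2_exp (n : ℤ) : cexp (2 * π * I * (n : ℂ) / 8) =
    cexp (2 * π * I / 8) ^ ((n : ZMod 8)).val := by
  have h1 : (((n : ZMod 8).val : ℕ) : ℤ) = n % 8 := ZMod.val_intCast n
  have h2 : (n : ℂ) = (((n : ZMod 8).val : ℕ) : ℂ) + 8 * ((n / 8 : ℤ) : ℂ) := by
    have h3 : n = (((n : ZMod 8).val : ℕ) : ℤ) + 8 * (n / 8) := by omega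
    exact_mod_cast congrArg (fun z : ℤ => (z : ℂ)) h3
  rw [← Complex.exp_nat_mul, Complex.exp_eq_exp_iff_exists_int]
  refine ⟨n / 8, ?_⟩
  generalize (((n : ZMod 8).val : ℕ) : ℂ) = r at h2 ⊢
  generalize ((n / 8 : ℤ) : ℂ) = s at h2 ⊢
  rw [h2]
  ring

theorem b2_FT {δ : ℤ} (h : Dl δ) (k : Fin 3) (ξ : O) :
    FT (m2 δ) (fun α => toC (y2 δ k α.re α.im)) ξ = m2 δ * toC (y2 δ k ξ.re ξ.im) := by
  have e : FT (m2 δ) (fun α => toC (y2 δ k α.re α.im)) ξ =
      toC (b2T δ k (ξ.re : ZMod 8).val (-(ξ.im : ZMod 8)).val).1 +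
      toC (b2T δ k (ξ.re : ZMod 8).val (-(ξ.im : ZMod 8)).val).2.1 * cexp (2 * π * I / 8) +
      toC (b2T δ k (ξ.re : ZMod 8).val (-(ξ.im : ZMod 8)).val).2.2.1 * cexp (2 * π * I / 8) ^ 2 +
      toC (b2T δ k (ξ.re : ZMod 8).val (-(ξ.im : ZMod 8)).val).2.2.2 *
        cexp (2 * π * I / 8) ^ 3 := by
    unfold FT b2T
    simp only [Prod.fst_sum, Prod.snd_sum, map_sum, Finset.sum_mul, ← Finset.sum_add_distrib]
    refine Finset.sum_congr rfl fun x _ => Finset.sum_congr rfl fun y _ => ?_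
    have h2 : (((8 / m2 δ : ℕ) * ((y : ℤ) * ξ.re - (x : ℤ) * ξ.im) : ℤ) : ZMod 8) =
        (8 / m2 δ * (y * (ξ.re : ZMod 8).val + x * (-(ξ.im : ZMod 8)).val) : ℕ) := by
      rw [Nat.cast_mul, Nat.cast_add, Nat.cast_mul, Nat.cast_mul, ZMod.natCast_zmod_val,
        ZMod.natCast_zmod_val, Int.cast_mul, Int.cast_natCast]
      push_cast
      ring
    have h3 : 2 * π * I * (((y : ℤ) * ξ.re - (x : ℤ) * ξ.im : ℤ) : ℂ) / (m2 δ : ℕ) =
        2 * π * I * (((8 / m2 δ : ℕ) * ((y : ℤ) * ξ.re - (x : ℤ) * ξ.im) : ℤ) : ℂ) / 8 := by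
      unfold m2
      split_ifs <;> push_cast <;> ring
    rw [h3, b2_exp, h2, ZMod.val_natCast, b2_pow _ (Nat.mod_lt _ (by norm_num)),
      Int.cast_natCast, Int.cast_natCast]
  rw [e, b2_T h]
  simp

theorem x2_eq {X : O → O} (hX : IsX 2 X) (α : O) : X α = x2 α.re α.im := by
  have h1 : ((((α.re : ℤ) : ZMod 8).val : ℕ) : ℤ) = α.re % 8 := ZMod.val_intCast _
  have h2 : ((((α.im : ℤ) : ZMod 8).val : ℕ) : ℤ) = α.im % 8 := ZMod.val_intCast _
  have h3 : X α = X ⟨α.re % 2, α.im % 2⟩ := by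
    rw [← f4b_per hX.per (α.re % 2) (α.im % 2) (α.re / 2) (α.im / 2)]
    congr 1
    ext <;> simp [Int.emod_add_mul_ediv]
  have h4 : X om = om := hX.at_om.trans (by decide)
  rw [h3, x2]
  split_ifs with c d d
  · rw [show α.re % 2 = 0 by omega, show α.im % 2 = 0 by omega]
    exact hX.zero _ (by decide)
  · rw [show α.re % 2 = 0 by omega, show α.im % 2 = 1 by omega]
    exact h4
  · rw [show α.re % 2 = 1 by omega, show α.im % 2 = 0 by omega]
    exact hX.one Nat.prime_two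
  · rw [show α.re % 2 = 1 by omega, show α.im % 2 = 1 by omega, ← h4, ← hX.conj,
      ← hX.per (star om) ⟨1, 1⟩]
    exact congrArg X (by decide)

theorem lc_two {δ : ℤ} (h : Dl δ) {X : O → O} (hX : IsX 2 X) (e : ℕ) :
    Lc 2 (m2 δ) fun α => star (X α) ^ e * (c8 δ (nm α : ℤ) : ℤ) := by
  have a0 : ∃ j, m2 δ = 2 ^ (j + 1) := by
    unfold m2
    split_ifs
    · exact ⟨1, rfl⟩
    · exact ⟨2, rfl⟩
  obtain ⟨j, hj⟩ := a0
  have a1 : ∀ α : O, star (X α) ^ e * (c8 δ (nm α : ℤ) : ℤ) =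
      y2 δ ⟨e % 3, Nat.mod_lt _ three_pos⟩ α.re α.im := fun α => by
    rw [← y2_pow, x2_eq hX, nm]
    push_cast
    rfl
  refine ⟨⟨_, hj⟩, fun α β => ?_, fun α γ => ?_, fun n hn => ?_, fun ξ => ?_⟩
  · rw [hX.mul, star_mul', mul_pow, nm_mul, Int.cast_mul, c8_mul h, Int.cast_mul]
    ring
  · obtain ⟨k, hk⟩ := nm_per (m2 δ) α γ
    rw [hk, f8_per hX.per (hj ▸ dvd_pow_self 2 j.succ_ne_zero), Int.cast_add, Int.cast_mul,
      Int.cast_natCast, c8_per h]
  · obtain ⟨k, rfl⟩ : ∃ k, n = 2 * k + 1 := ⟨n / 2, by omega⟩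
    rw [hX.int _ hn, star_one, one_pow, nm_int, one_mul]
    push_cast
    rw [c8_odd h, Int.cast_one]
  · simp only [a1, b2_FT h]

end Pool.Agent.Lib.MP_696deb_nt.CQ
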