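import Pool.Agent.Lib.MP_696deb_nt.CQ.B2

/-! The quadratic character. -/

set_option autoImplicit false

open scoped Classical Real
open Complex Finset

namespace Pool.Agent.Lib.MP_696deb_nt.CQ

open CL

/-- The prime discriminant. -/
def qst (q : ℕ) : ℤ := ZMod.χ₄ q * q

theorem qst_abs {q : ℕ} (h : Odd q) : (qst q).natAbs = q := by
  rw [qst, Int.natAbs_mul, ZMod.χ₄_nat_eq_if_mod_four, if_neg (by rw [Nat.odd_iff.1 h]; decide)]
  split_ifs <;> simp

theorem qst_mod {q : ℕ} (h : Odd q) : qst q % 4 = 1 := by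
  have := Nat.odd_iff.1 h
  rw [qst, ZMod.χ₄_nat_eq_if_mod_four, if_neg (by omega)]
  split_ifs <;> omega

theorem qst_jac {q p : ℕ} (h : Odd q) (hp : Odd p) : jacobiSym (qst q) p = jacobiSym p q := by
  rw [jacobiSym.quadratic_reciprocity' hp h, qrSign, qst, jacobiSym.mul_left]

theorem jac_prod (R : Finset ℕ) (f : ℕ → ℤ) (p : ℕ) :
    jacobiSym (∏ q ∈ R, f q) p = ∏ q ∈ R, jacobiSym (f q) p := by
  induction R using Finset.induction_on with
  | empty => rw [prod_empty, prod_empty, jacobiSym.one_left]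
  | insert a s ha ih => rw [prod_insert ha, prod_insert ha, jacobiSym.mul_left, ih]

theorem fac_two {n : ℕ} (hn : n ≠ 0) (r : ℕ) : n = r ^ n.factorization r *
    ∏ q ∈ n.primeFactors.erase r, q ^ n.factorization q := by
  have h := Nat.prod_factorization_pow_eq_self hn
  rw [Finsupp.prod, Nat.support_factorization] at h
  by_cases h3 : r ∈ n.primeFactors
  · rw [← mul_prod_erase _ _ h3] at h
    exact h.symm
  · rw [erase_eq_of_notMem h3, Finsupp.notMem_support_iff.1 (Nat.support_factorization n ▸ h3),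
      pow_zero, one_mul, h]

/-- The odd primes that divide to an odd power. -/
noncomputable def Ro (d : ℤ) : Finset ℕ :=
  (d.natAbs.primeFactors.erase 2).filter fun q => d.natAbs.factorization q % 2 = 1

theorem Ro_odd {d : ℤ} {q : ℕ} (h : q ∈ Ro d) : q.Prime ∧ q ≠ 2 ∧ (q : ℤ) ∣ d := by
  simp only [Ro, mem_filter, mem_erase, Nat.mem_primeFactors] at h
  exact ⟨h.1.2.1, h.1.1, Int.natCast_dvd.2 h.1.2.2.1⟩

theorem decomp {d : ℤ} (hd : d ≠ 0) : ∃ δ s : ℤ, (δ = 1 ∨ Dl δ) ∧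
    d = δ * (∏ q ∈ Ro d, qst q) * s ^ 2 ∧
    (δ = 1 ↔ d.natAbs.factorization 2 % 2 = 0 ∧ d / 2 ^ d.natAbs.factorization 2 % 4 = 1) := by
  have hF := fac_two (Int.natAbs_ne_zero.2 hd) 2
  have hodd : ∀ q ∈ d.natAbs.primeFactors.erase 2, Odd q := fun q hq =>
    (Nat.prime_of_mem_primeFactors (mem_of_mem_erase hq)).odd_of_ne_two (ne_of_mem_erase hq)
  obtain ⟨u, hu⟩ : ∃ u : ℕ, u = ∏ q ∈ d.natAbs.primeFactors.erase 2,
    q ^ (d.natAbs.factorization q / 2) := ⟨_, rfl⟩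
  have u1 : Odd u := hu ▸ prod_induction _ Odd (fun _ _ => Odd.mul) odd_one
    fun q hq => (hodd q hq).pow
  have e1 : ∏ q ∈ d.natAbs.primeFactors.erase 2, q ^ d.natAbs.factorization q =
      (∏ q ∈ Ro d, q) * u ^ 2 := by
    rw [hu, Ro, prod_filter, ← prod_pow, ← prod_mul_distrib]
    refine prod_congr rfl fun q _ => ?_
    conv_lhs => rw [← Nat.mod_add_div' (d.natAbs.factorization q) 2, pow_add, pow_mul]
    rcases Nat.mod_two_eq_zero_or_one (d.natAbs.factorization q) with e | e <;> simp [e]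
  obtain ⟨w, hw⟩ : ∃ w, w = ∏ q ∈ Ro d, qst q := ⟨_, rfl⟩
  have p1 : w % 4 = 1 := hw ▸ prod_induction _ (fun x : ℤ => x % 4 = 1)
    (fun a b ha hb => by rw [Int.mul_emod, ha, hb]; rfl) rfl
      fun q hq => qst_mod (hodd q (mem_of_mem_filter q hq))
  have p2 : w.natAbs = ∏ q ∈ Ro d, q := by
    rw [hw, ← Int.natAbsHom_apply, map_prod]
    exact prod_congr rfl fun q hq => qst_abs (hodd q (mem_of_mem_filter q hq))
  rw [← hw]
  generalize d.natAbs.factorization 2 = a at hF ⊢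
  have e2 : d.natAbs = (2 ^ a * (w * (u : ℤ) ^ 2)).natAbs := by
    rw [hF, e1, Int.natAbs_mul, Int.natAbs_mul, p2, Int.natAbs_pow, Int.natAbs_pow,
      Int.natAbs_natCast]
    rfl
  have e3 : w * (u : ℤ) ^ 2 % 4 = 1 := by
    rw [Int.mul_emod, p1, Int.sq_mod_four_eq_one_of_odd (by exact_mod_cast u1)]
    rfl
  have e4 : (2 : ℤ) ^ a = 2 ^ (a % 2) * (2 ^ (a / 2)) ^ 2 := by
    rw [← pow_mul, ← pow_add, Nat.mod_add_div']
  have e5 : (2 : ℤ) ^ a ≠ 0 := pow_ne_zero _ two_ne_zero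
  rcases Int.natAbs_eq_natAbs_iff.1 e2 with e | e
  · refine ⟨2 ^ (a % 2), 2 ^ (a / 2) * u, ?_, by rw [e, e4]; ring, ?_⟩
    · rcases Nat.mod_two_eq_zero_or_one a with c | c <;> simp [c, Dl]
    · rw [e, Int.mul_ediv_cancel_left _ e5]
      rcases Nat.mod_two_eq_zero_or_one a with c | c <;> simp [c, e3]
  · refine ⟨-2 ^ (a % 2), 2 ^ (a / 2) * u, ?_, by rw [e, e4]; ring, ?_⟩
    · rcases Nat.mod_two_eq_zero_or_one a with c | c <;> simp [c, Dl]
    · rw [e, ← mul_neg, Int.mul_ediv_cancel_left _ e5]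
      refine iff_of_false ?_ (by omega)
      rcases Nat.mod_two_eq_zero_or_one a with c | c <;> simp [c]

theorem f8s_jac {m : ℕ} (h : ¬ 3 ∣ m) : f8s m = jacobiSym m 3 := by
  rw [jacobiSym.mod_left, f8s]
  split_ifs with c
  · rw [show (m : ℤ) % (3 : ℕ) = 1 by omega, jacobiSym.one_left]
  · rw [show (m : ℤ) % (3 : ℕ) = 2 by omega]
    norm_num

theorem exists_quad {d : ℤ} (hd : d ≠ 0) (h3 : ¬ 3 ∣ d) :
    ∃ (R : Finset ℕ) (m : ℕ → ℕ) (η : ℕ → ℤ → ℤ),
    (∀ q ∈ R, q.Prime ∧ q ≠ 3 ∧ ∀ X, IsX q X → ∀ e : ℕ,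
      Lc q (m q) fun α => star (X α) ^ e * (η q (nm α) : ℤ)) ∧
    (∀ q : ℕ, q.Prime → (q ∉ R ↔ d.natAbs.factorization q % 2 = 0 ∧
      (q = 2 → d / 2 ^ d.natAbs.factorization 2 % 4 = 1))) ∧
    (∀ q ∈ R, (∀ a b, η q (a * b) = η q a * η q b) ∧ η q 1 = 1 ∧
      ∀ a, η q a = 0 ∨ η q a = 1 ∨ η q a = -1) ∧
    (∀ p : ℕ, p.Prime → p ≠ 2 → ¬ (p : ℤ) ∣ d → ∏ q ∈ R, η q p = jacobiSym d p) ∧
    ∏ q ∈ R, f8s (m q) = jacobiSym |d| 3 := by
  obtain ⟨δ, s, h1, h2, h4⟩ := decomp hd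
  have r2 : 2 ∉ Ro d := fun h => (Ro_odd h).2.1 rfl
  have r3 : ∀ q ∈ Ro d, q ≠ 3 := fun q h e => h3 (by simpa [e] using (Ro_odd h).2.2)
  have ro : ∀ q ∈ Ro d, Odd q := fun q h => (Ro_odd h).1.odd_of_ne_two (Ro_odd h).2.1
  have hs : ∀ p : ℕ, p.Prime → ¬ (p : ℤ) ∣ d → jacobiSym (s ^ 2) p = 1 := fun p hp c =>
    jac_sq hp fun e => c (h2 ▸ (e.trans (dvd_pow_self s two_ne_zero)).mul_left _)
  have j1 : ∀ p : ℕ, p.Prime → p ≠ 2 → ¬ (p : ℤ) ∣ d →
      jacobiSym d p = jacobiSym δ p * ∏ q ∈ Ro d, jacobiSym p q := fun p hp c e => by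
    conv_lhs => rw [h2]
    rw [jacobiSym.mul_left, jacobiSym.mul_left, hs p hp e, mul_one, jac_prod,
      prod_congr rfl fun q hq => qst_jac (ro q hq) (hp.odd_of_ne_two c)]
  have j2 : jacobiSym |d| 3 = jacobiSym |δ| 3 * ∏ q ∈ Ro d, f8s q := by
    conv_lhs => rw [h2]
    rw [abs_mul, abs_mul, abs_pow, sq_abs, jacobiSym.mul_left, jacobiSym.mul_left,
      hs 3 Nat.prime_three h3, mul_one, abs_prod, jac_prod]
    congr 1
    refine prod_congr rfl fun q hq => ?_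
    rw [Int.abs_eq_natAbs, qst_abs (ro q hq), f8s_jac fun e =>
      r3 q hq ((Nat.prime_dvd_prime_iff_eq Nat.prime_three (Ro_odd hq).1).1 e).symm]
  have j3 : ∀ q : ℕ, q.Prime → q ≠ 2 → (q ∉ Ro d ↔ d.natAbs.factorization q % 2 = 0) :=
    fun q hq c => by
      simp only [Ro, mem_filter, mem_erase, not_and]
      refine ⟨fun h => by_contra fun e => h ⟨c, ?_⟩ (by omega), fun h _ => by omega⟩
      rw [← Nat.support_factorization, Finsupp.mem_support_iff]
      omega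
  have j4 : ∀ q ∈ Ro d, (∀ a b, jacobiSym (a * b) q = jacobiSym a q * jacobiSym b q) ∧
      jacobiSym 1 q = 1 ∧ ∀ a, jacobiSym a q = 0 ∨ jacobiSym a q = 1 ∨ jacobiSym a q = -1 :=
    fun q _ => ⟨fun a b => jacobiSym.mul_left a b q, jacobiSym.one_left q,
      fun a => jacobiSym.trichotomy a q⟩
  rcases h1 with rfl | h1
  · refine ⟨Ro d, fun q => q, fun q a => jacobiSym a q, fun q hq => ⟨(Ro_odd hq).1, r3 q hq,
      fun X hX e => lc_mix (Ro_odd hq).1 (Ro_odd hq).2.1 (r3 q hq) hX e⟩, fun q hq => ?_, j4,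
      fun p hp c e => by rw [j1 p hp c e, jacobiSym.one_left, one_mul],
      by rw [j2, abs_one, jacobiSym.one_left, one_mul]⟩
    by_cases c : q = 2
    · subst c
      exact iff_of_true r2 ⟨(h4.1 rfl).1, fun _ => (h4.1 rfl).2⟩
    · rw [j3 q hq c]
      exact ⟨fun h => ⟨h, fun e => absurd e c⟩, fun h => h.1⟩
  · have d1 : δ ≠ 1 := by rcases h1 with rfl | rfl | rfl <;> decide
    have ne : ∀ q ∈ Ro d, q ≠ 2 := fun q h => (Ro_odd h).2.1
    refine ⟨insert 2 (Ro d), fun q => if q = 2 then m2 δ else q,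
      fun q a => if q = 2 then c8 δ a else jacobiSym a q, fun q hq => ?_, fun q hq => ?_,
      fun q hq => ?_, fun p hp c e => ?_, ?_⟩
    · rcases mem_insert.1 hq with rfl | hq
      · exact ⟨Nat.prime_two, by decide, fun X hX e => by simpa using lc_two h1 hX e⟩
      · refine ⟨(Ro_odd hq).1, r3 q hq, fun X hX e => ?_⟩
        simp only [if_neg (ne q hq)]
        exact lc_mix (Ro_odd hq).1 (ne q hq) (r3 q hq) hX e
    · by_cases c : q = 2
      · subst c
        exact iff_of_false (fun h => h (mem_insert_self _ _)) fun h => d1 (h4.2 ⟨h.1, h.2 rfl⟩)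
      · rw [mem_insert, or_iff_right c, j3 q hq c]
        exact ⟨fun h => ⟨h, fun e => absurd e c⟩, fun h => h.1⟩
    · rcases mem_insert.1 hq with rfl | hq
      · simp only [if_true]
        exact ⟨fun a b => by rw [Int.cast_mul, c8_mul h1], by rw [Int.cast_one, c8_one h1],
          fun a => c8_bd _ _⟩
      · simp only [if_neg (ne q hq)]
        exact j4 q hq
    · dsimp only
      rw [prod_insert r2, if_pos rfl, prod_congr rfl fun q hq => if_neg (ne q hq), j1 p hp c e,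
        c8_jac h1 (hp.odd_of_ne_two c), Int.cast_natCast]
    · dsimp only
      rw [prod_insert r2, if_pos rfl, prod_congr rfl fun q hq => by rw [if_neg (ne q hq)], j2]
      congr 1
      rcases h1 with rfl | rfl | rfl <;> norm_num [m2, f8s]

end Pool.Agent.Lib.MP_696deb_nt.CQ
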